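import Pool.Agent.Y957.VK.Stm3

set_option autoImplicit false

/-!
# Project VK (helper957), part 3: the weight `Λ(n) - 1`
-/

namespace Pool.Agent.Y555.VK

open Finset MeasureTheory Filter Topology Pool.Agent.Y957.VK
open Pool.Agent.H376R2.MR (er)

theorem cpow_er (n : ℕ) (hn : n ≠ 0) (τ : ℝ) :
    (n : ℂ) ^ (-((-τ : ℝ) : ℂ) * Complex.I) = er τ (Real.log n) := by
  have h0 : (n : ℂ) ≠ 0 := by exact_mod_cast hn
  rw [Complex.cpow_def_of_ne_zero h0, er, ← Complex.natCast_log]
  congr 1
  push_cast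
  ring

theorem lamw_real (n : ℕ) : lamw n = ((ArithmeticFunction.vonMangoldt n - 1 : ℝ) : ℂ) := by
  unfold lamw
  push_cast
  rfl

theorem lamw_le (n : ℕ) : ‖lamw n‖ ≤ Real.log (n + 3) := by
  rw [lamw_real, Complex.norm_real, Real.norm_eq_abs, abs_le]
  have h0 := ArithmeticFunction.vonMangoldt_nonneg (n := n)
  have h1 : ArithmeticFunction.vonMangoldt n ≤ Real.log n := ArithmeticFunction.vonMangoldt_le_log
  have h3 : (1 : ℝ) ≤ Real.log (n + 3) := by
    rw [Real.le_log_iff_exp_le (by positivity)]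
    have := Real.exp_one_lt_d9
    have hn : (0 : ℝ) ≤ n := Nat.cast_nonneg n
    linarith
  constructor
  · linarith
  · rcases Nat.eq_zero_or_pos n with rfl | hn
    · simp only [Nat.cast_zero, Real.log_zero] at h1
      linarith
    · have h4 : Real.log n ≤ Real.log (n + 3) :=
        Real.log_le_log (by exact_mod_cast hn) (by linarith)
      linarith

theorem lw (h : S_LAM) : S_LW := by
  refine ⟨lamw_le, ?_, ?_⟩
  · obtain ⟨C, hC⟩ := h 0 0
    have hC0 : ∀ N : ℕ, 2 ≤ N →
        |∑ n ∈ Icc 1 N, (ArithmeticFunction.vonMangoldt n - 1 : ℝ)| ≤ |C| * N := by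
      intro N hN
      have h1 := hC N 0 hN (by simp)
      have h2 : ∑ n ∈ Icc 1 N, ((ArithmeticFunction.vonMangoldt n : ℂ) - 1) *
          (n : ℂ) ^ (-((0 : ℝ) : ℂ) * Complex.I) =
          ((∑ n ∈ Icc 1 N, (ArithmeticFunction.vonMangoldt n - 1 : ℝ) : ℝ) : ℂ) := by
        push_cast
        refine sum_congr rfl fun n _ => ?_
        simp
      rw [h2, Complex.norm_real, Real.norm_eq_abs, pow_zero, div_one] at h1
      exact h1.trans (mul_le_mul_of_nonneg_right (le_abs_self C) (Nat.cast_nonneg _))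
    have hsum : ∀ N : ℕ, ∑ n ∈ Icc 1 N, ‖lamw n‖ ≤
        |∑ n ∈ Icc 1 N, (ArithmeticFunction.vonMangoldt n - 1 : ℝ)| + 2 * N := by
      intro N
      have h1 : ∀ n ∈ Icc 1 N, ‖lamw n‖ ≤ (ArithmeticFunction.vonMangoldt n - 1) + 2 := by
        intro n _
        rw [lamw_real, Complex.norm_real, Real.norm_eq_abs, abs_le]
        have h0 := ArithmeticFunction.vonMangoldt_nonneg (n := n)
        constructor <;> linarith
      refine (sum_le_sum h1).trans ?_
      rw [sum_add_distrib, sum_const, Nat.card_Icc, nsmul_eq_mul, Nat.add_sub_cancel]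
      have := le_abs_self (∑ n ∈ Icc 1 N, (ArithmeticFunction.vonMangoldt n - 1 : ℝ))
      linarith
    refine ⟨|C| + 3, fun N => ?_⟩
    have hN0 : (0 : ℝ) ≤ N := Nat.cast_nonneg N
    rcases Nat.lt_or_ge N 2 with hN | hN
    · interval_cases N
      · simp
      · have h1 := hsum 1
        have h2 : ∑ n ∈ Icc 1 1, (ArithmeticFunction.vonMangoldt n - 1 : ℝ) = -1 := by simp
        rw [h2] at h1
        simp only [Nat.cast_one, abs_neg, abs_one] at h1 ⊢
        have := abs_nonneg C
        linarith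
    · have h1 := hsum N
      have h2 := hC0 N hN
      nlinarith
  · intro A K
    obtain ⟨C, hC⟩ := h A K
    refine ⟨C, fun N τ hN hτ => ?_⟩
    have h1 := hC N (-τ) hN (by rwa [abs_neg])
    refine le_trans (le_of_eq ?_) h1
    congr 1
    refine Finset.sum_congr rfl fun n hn => ?_
    rw [cpow_er n (by have := (Finset.mem_Icc.1 hn).1; omega) τ]
    rfl

end Pool.Agent.Y555.VK
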